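import Pool.Agent.W2helper58.GF.Stm

/-!
# Project GF, piece H1 (`P_local`)
-/

set_option autoImplicit false

namespace Pool.Agent.W2helper56.GF

open Pool.Agent.NPC Pool.Agent.H620R2.Gauge Pool.Agent.W2helper58.GF

theorem length_inp (n k : ℕ) : (inp n k).length = 2 * n + 1 + k := by
  change (pairBits (un n) (un k)).length = _
  rw [length_pairBits, List.length_replicate, List.length_replicate]

theorem length_adr (n k : ℕ) (b : Bool) (r : List Bool) (j : ℕ) (hr : r.length = k)
    (hj : j ≤ 3 * n) : (adr n k b r j).length = 7 * n + 3 * k + 4 := by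
  unfold adr
  rw [length_pairBits, length_inp]
  simp only [List.length_cons, List.length_append, List.length_replicate, hr]
  omega

/-- the number of seeds of length `l` for which the circuit accepts -/
noncomputable def cnt (n k : ℕ) (G : Alg) (B : Oracle) (l : ℕ) : ℕ :=
  Nat.card {s : Fin l → Bool // look n k B
    ((G.out B (pairBits (un (outLen n k)) (List.ofFn s))).getD []) = true}

theorem rval_inr (n k : ℕ) (B : Oracle) (D G : Alg) (c m₀ : ℕ) :
    rval n k B (Sum.inr (D, G, c, m₀)) = (seedLen D (outLen n k) B,
      if 2 ^ seedLen D (outLen n k) B ≤ (outLen n k) ^ c then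
        cnt n k G B (seedLen D (outLen n k) B) else 0) := rfl

theorem p_local : P_local := by
  classical
  rintro (M | ⟨D, G, c, m₀⟩)
  · obtain ⟨qb, hqb⟩ := M.out_local
    refine ⟨(M.p + qb).comp (Polynomial.C 3 * Polynomial.X + Polynomial.C 1), ?_⟩
    intro n k hk B
    obtain ⟨Q, h1, h2, h3⟩ := hqb B (inp n k)
    have hlen : (inp n k).length ≤ 3 * n + 1 := by
      rw [length_inp]
      omega
    have e1 := eval_mono M.p hlen
    have e2 := eval_mono qb hlen
    refine ⟨Q, ?_, ?_, ?_⟩
    · simp only [Polynomial.eval_comp, Polynomial.eval_add, Polynomial.eval_mul, Polynomial.eval_C,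
        Polynomial.eval_X]
      omega
    · intro q hq
      have := h2 q hq
      simp only [Polynomial.eval_comp, Polynomial.eval_add, Polynomial.eval_mul, Polynomial.eval_C,
        Polynomial.eval_X]
      omega
    · intro B' hB'
      simp only [rval, h3 B' hB']
  · obtain ⟨qD, hqD⟩ := D.out_local
    obtain ⟨qG, hqG⟩ := G.out_local
    set mP : Polynomial ℕ := Polynomial.C 10 * Polynomial.X + Polynomial.C 5 with hmP
    set L : Polynomial ℕ := Polynomial.C 2 * mP + Polynomial.C 1 + mP ^ c with hL
    refine ⟨D.p.comp mP + mP ^ c * (G.p.comp L + Polynomial.C 1) + qD.comp mP + qG.comp L + mP, ?_⟩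
    intro n k hk B
    set m := outLen n k with hm
    have hmle : m ≤ mP.eval n := by
      rw [hmP, hm, outLen]
      simp only [Polynomial.eval_add, Polynomial.eval_mul, Polynomial.eval_C, Polynomial.eval_X]
      omega
    have hun : (un m).length = m := List.length_replicate
    obtain ⟨Q₁, h1, h2, h3⟩ := hqD B (un m)
    rw [hun] at h1 h2
    have eD1 := eval_mono D.p hmle
    have eD2 := eval_mono qD hmle
    set l := seedLen D m B with hl
    have hsl : ∀ B' : Oracle, (∀ q ∈ Q₁, B' q = B q) → seedLen D m B' = l := by
      intro B' hB'
      rw [hl, seedLen, seedLen, h3 B' hB']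
    simp only [Polynomial.eval_comp, Polynomial.eval_add, Polynomial.eval_mul, Polynomial.eval_C,
      Polynomial.eval_pow]
    by_cases hc : 2 ^ l ≤ m ^ c
    · -- the seeds
      have hLle : 2 * m + 1 + l ≤ L.eval n := by
        have h4 : m ^ c ≤ (mP.eval n) ^ c := Nat.pow_le_pow_left hmle c
        have h5 : l < 2 ^ l := Nat.lt_two_pow_self
        rw [hL]
        simp only [Polynomial.eval_add, Polynomial.eval_mul, Polynomial.eval_C,
          Polynomial.eval_pow]
        omega
      have hG : ∀ s : Fin l → Bool, ∃ Q : Finset (List Bool), Q.card ≤ G.p.eval (L.eval n) + 1 ∧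
          (∀ q ∈ Q, q.length ≤ qG.eval (L.eval n) + m) ∧
          ∀ B' : Oracle, (∀ q ∈ Q, B' q = B q) →
            look n k B' ((G.out B' (pairBits (un m) (List.ofFn s))).getD []) =
            look n k B ((G.out B (pairBits (un m) (List.ofFn s))).getD []) := by
        intro s
        obtain ⟨Q, g1, g2, g3⟩ := hqG B (pairBits (un m) (List.ofFn s))
        have hlen : (pairBits (un m) (List.ofFn s)).length ≤ L.eval n := by
          rw [length_pairBits, hun, List.length_ofFn]
          exact hLle
        have eG1 := eval_mono G.p hlen
        have eG2 := eval_mono qG hlen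
        set z := (G.out B (pairBits (un m) (List.ofFn s))).getD [] with hz
        refine ⟨insert (adr n k true ((List.range k).map fun i => z.getD i false) 0) Q, ?_, ?_, ?_⟩
        · refine (Finset.card_insert_le _ _).trans ?_
          omega
        · intro q hq
          rcases Finset.mem_insert.1 hq with rfl | hq
          · rw [length_adr n k _ _ 0 (by simp) (by omega)]
            rw [hm, outLen]
            omega
          · have := g2 q hq
            omega
        · intro B' hB'
          rw [g3 B' fun q hq => hB' q (Finset.mem_insert_of_mem hq)]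
          exact hB' _ (Finset.mem_insert_self _ _)
      choose QG g1 g2 g3 using hG
      refine ⟨Q₁ ∪ Finset.univ.biUnion QG, ?_, ?_, ?_⟩
      · refine (Finset.card_union_le _ _).trans ?_
        have h4 : (Finset.univ.biUnion QG).card ≤ (mP.eval n) ^ c * (G.p.eval (L.eval n) + 1) := by
          refine Finset.card_biUnion_le.trans ?_
          refine (Finset.sum_le_card_nsmul _ _ _ fun s _ => g1 s).trans ?_
          rw [smul_eq_mul, Finset.card_univ]
          refine Nat.mul_le_mul_right _ ?_
          rw [Fintype.card_fun, Fintype.card_bool, Fintype.card_fin]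
          exact hc.trans (Nat.pow_le_pow_left hmle c)
        omega
      · intro q hq
        rcases Finset.mem_union.1 hq with hq | hq
        · have := h2 q hq
          omega
        · obtain ⟨s, -, hs⟩ := Finset.mem_biUnion.1 hq
          have := g2 s q hs
          omega
      · intro B' hB'
        have h4 : seedLen D m B' = l := hsl B' fun q hq => hB' q (Finset.mem_union_left _ hq)
        rw [rval_inr, rval_inr, ← hm, h4, ← hl]
        have h5 : cnt n k G B' l = cnt n k G B l := by
          unfold cnt
          refine Nat.card_congr (Equiv.subtypeEquivRight fun s => ?_)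
          rw [← hm, g3 s B' fun q hq => hB' q (Finset.mem_union_right _
            (Finset.mem_biUnion.2 ⟨s, Finset.mem_univ _, hq⟩))]
        rw [h5]
    · refine ⟨Q₁, by omega, ?_, ?_⟩
      · intro q hq
        have := h2 q hq
        omega
      · intro B' hB'
        have h4 : seedLen D m B' = l := hsl B' hB'
        rw [rval_inr, rval_inr, ← hm, h4, ← hl, if_neg hc, if_neg hc]

end Pool.Agent.W2helper56.GF
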