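import Pool.Agent.W2helper58.GF.Stm
import Pool.Agent.H620R2.Gauge.A2

/-!
# Project GF, piece G1 (`P_zpp`)
-/

set_option autoImplicit false

namespace Pool.Agent.W2helper56.GF

open Pool.Agent.NPC Pool.Agent.H622R2 Pool.Agent.H620R2.Gauge Pool.Agent.W2helper58.GF

/-! ### polynomial time -/

theorem poly_rep {α : Type} [TEnc α] {n : α → ℕ} (hn : UPoly n) (b : Bool) :
    Poly (fun a => List.replicate (n a) b) := by
  refine (NPC.Poly.map (F := fun (_ : α) (_ : Unit) => b) hn (NPC.Poly.const b)).congr fun a => ?_
  simp

theorem poly_inp {α : Type} [TEnc α] {n k : α → ℕ} (hn : UPoly n) (hk : UPoly k) :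
    Poly (fun a => inp (n a) (k a)) :=
  poly_pairBits (poly_rep hn true) (poly_rep hk true)

/-- the questions about a cell -/
def zq (n k : ℕ) (b : Bool) (r : List Bool) : List (List Bool) :=
  (List.range (3 * n)).map fun j => adr n k b r j

theorem poly_zq {α : Type} [TEnc α] {n k : α → ℕ} {r : α → List Bool} (hn : UPoly n)
    (hk : UPoly k) (b : Bool) (hr : Poly r) : Poly (fun a => zq (n a) (k a) b (r a)) := by
  have h3 : UPoly (fun a => 3 * n a) := UPoly.mul (UPoly.const 3) hn
  have h3' : UPoly (fun p : α × ℕ => 3 * n p.1) := h3.comp (Poly.fst Poly.id)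
  have hm : UPoly (fun p : α × ℕ => min p.2 (3 * n p.1)) :=
    UPoly.of_le (Poly.min (Poly.snd Poly.id) h3'.toPoly) h3' fun p => min_le_right _ _
  have hs : UPoly (fun p : α × ℕ => 3 * n p.1 - min p.2 (3 * n p.1)) :=
    UPoly.of_le (Poly.sub h3'.toPoly hm.toPoly) h3' fun p => Nat.sub_le _ _
  refine (NPC.Poly.map (F := fun a j => pairBits (inp (n a) (k a)) (b :: (r a ++
    (List.replicate (min j (3 * n a)) true ++
      List.replicate (3 * n a - min j (3 * n a)) false)))) h3.range ?_).congr fun a => ?_
  · exact poly_pairBits (poly_inp (hn.comp (Poly.fst Poly.id)) (hk.comp (Poly.fst Poly.id)))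
      (Poly.cons (NPC.Poly.const b) (Poly.append (hr.comp (Poly.fst Poly.id))
        (Poly.append (poly_rep hm true) (poly_rep hs false))))
  · refine List.map_congr_left fun j hj => ?_
    rw [adr, min_eq_left (List.mem_range.1 hj).le]

/-- the parameter `n` -/
def zn (y : List Bool) : ℕ := (unpair (unpair y).2).1.length

/-- the parameter `k` -/
def zk (y : List Bool) : ℕ := (unpair (unpair y).2).2.length

theorem poly_zn : UPoly zn := UPoly.length (Poly.fst (poly_unpair.comp (Poly.snd poly_unpair)))

theorem poly_zk : UPoly zk := UPoly.length (Poly.snd (poly_unpair.comp (Poly.snd poly_unpair)))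

/-- the cell -/
def zr (y : List Bool) : List Bool := (List.range (zk y)).map fun i => (unpair y).1.getD i false

theorem poly_zr : Poly zr :=
  NPC.Poly.map (F := fun y i => (unpair y).1.getD i false) poly_zk.range
    (Poly.getD (Poly.fst (poly_unpair.comp (Poly.fst Poly.id))) (Poly.snd Poly.id)
      (NPC.Poly.const false))

/-- the questions -/
def zQ (y : List Bool) : List (List Bool) :=
  zq (zn y) (zk y) false (List.replicate (zk y) false) ++ zq (zn y) (zk y) true (zr y)

theorem poly_zQ : Poly zQ :=
  Poly.append (poly_zq poly_zn poly_zk false (poly_rep poly_zk false))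
    (poly_zq poly_zn poly_zk true poly_zr)

/-- the answer -/
def zH (n₀ : ℕ) (p : List Bool × List Bool) : List Bool :=
  if inp (zn p.1) (zk p.1) = (unpair p.1).2 ∧ n₀ ≤ zn p.1 ∧ zk p.1 ≤ zn p.1 then
    if (List.range (3 * zn p.1)).all (fun j => p.2.getD j false) = true then
      if (List.range (3 * zn p.1)).all (fun j => p.2.getD (3 * zn p.1 + j) false) = true then
        [true]
      else if (List.range (3 * zn p.1)).all
        (fun j => !(p.2.getD (3 * zn p.1 + j) false)) = true then [false]
      else []
    else [false]
  else [false]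

theorem poly_zH (n₀ : ℕ) : Poly (zH n₀) := by
  have hn : UPoly (fun p : List Bool × List Bool => zn p.1) := poly_zn.comp (Poly.fst Poly.id)
  have hk : UPoly (fun p : List Bool × List Bool => zk p.1) := poly_zk.comp (Poly.fst Poly.id)
  have h3 : UPoly (fun p : List Bool × List Bool => 3 * zn p.1) := UPoly.mul (UPoly.const 3) hn
  have ha : Poly (fun q : (List Bool × List Bool) × ℕ => q.1.2.getD q.2 false) :=
    Poly.getD (Poly.snd (Poly.fst Poly.id)) (Poly.snd Poly.id) (NPC.Poly.const false)
  have hb : Poly (fun q : (List Bool × List Bool) × ℕ => q.1.2.getD (3 * zn q.1.1 + q.2) false) :=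
    Poly.getD (Poly.snd (Poly.fst Poly.id))
      (Poly.add (h3.toPoly.comp (Poly.fst Poly.id)) (Poly.snd Poly.id)) (NPC.Poly.const false)
  have hx : Poly (fun p : List Bool × List Bool => (unpair p.1).2) :=
    Poly.snd (poly_unpair.comp (Poly.fst Poly.id))
  have c1 : Poly (fun p : List Bool × List Bool => decide (inp (zn p.1) (zk p.1) = (unpair p.1).2 ∧
      n₀ ≤ zn p.1 ∧ zk p.1 ≤ zn p.1)) :=
    Poly.decide_and (Poly.decide_eq (poly_inp hn hk) hx)
      (Poly.decide_and (Poly.decide_le (NPC.Poly.const n₀) hn.toPoly)
        (Poly.decide_le hk.toPoly hn.toPoly))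
  have d2 : Poly (fun p : List Bool × List Bool =>
      (List.range (3 * zn p.1)).all (fun j => p.2.getD j false)) :=
    Poly.all (p := fun (q : List Bool × List Bool) j => q.2.getD j false) h3.range ha
  have d3 : Poly (fun p : List Bool × List Bool =>
      (List.range (3 * zn p.1)).all (fun j => p.2.getD (3 * zn p.1 + j) false)) :=
    Poly.all (p := fun (q : List Bool × List Bool) j => q.2.getD (3 * zn q.1 + j) false)
      h3.range hb
  have d4 : Poly (fun p : List Bool × List Bool =>
      (List.range (3 * zn p.1)).all (fun j => !(p.2.getD (3 * zn p.1 + j) false))) :=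
    Poly.all (p := fun (q : List Bool × List Bool) j => !(q.2.getD (3 * zn q.1 + j) false))
      h3.range (Poly.not hb)
  exact Poly.ite c1 (Poly.ite (Poly.decide_bool d2) (Poly.ite (Poly.decide_bool d3)
    (NPC.Poly.const _) (Poly.ite (Poly.decide_bool d4)
    (NPC.Poly.const _) (NPC.Poly.const _))) (NPC.Poly.const _)) (NPC.Poly.const _)

/-- the algorithm -/
def zV (n₀ : ℕ) (A : Oracle) (y : List Bool) : List Bool := zH n₀ (y, (zQ y).map A)

theorem isFP_zV (n₀ : ℕ) (A : Oracle) : IsFP A (zV n₀ A) := IsFP.tt poly_zQ (poly_zH n₀)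

/-! ### the values of the algorithm -/

theorem getD_fst {n j : ℕ} (f g : ℕ → Bool) (hj : j < n) :
    ((List.range n).map f ++ (List.range n).map g).getD j false = f j := by
  rw [List.getD_eq_getElem?_getD, List.getElem?_append_left (by simpa using hj)]
  simp [hj]

theorem getD_snd {n j : ℕ} (f g : ℕ → Bool) (hj : j < n) :
    ((List.range n).map f ++ (List.range n).map g).getD (n + j) false = g j := by
  rw [List.getD_eq_getElem?_getD, List.getElem?_append_right (by simp)]
  simp [hj]

open Classical in
theorem zV_eq {n₀ : ℕ} {A : Oracle} {n k : ℕ} (h1 : n₀ ≤ n) (h2 : k ≤ n) (w : List Bool) :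
    zV n₀ A (pairBits w (inp n k)) = if Flagged A n k then
      if Cell A n k ((List.range k).map fun i => w.getD i false) true then [true]
      else if Cell A n k ((List.range k).map fun i => w.getD i false) false then [false]
      else [] else [false] := by
  have e1 : unpair (pairBits w (inp n k)) = (w, inp n k) := unpair_pairBits _ _
  have e2 : unpair (inp n k) = (un n, un k) := unpair_pairBits _ _
  have e3 : zn (pairBits w (inp n k)) = n := by rw [zn, e1, e2]; exact List.length_replicate
  have e4 : zk (pairBits w (inp n k)) = k := by rw [zk, e1, e2]; exact List.length_replicate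
  have e5 : zr (pairBits w (inp n k)) = (List.range k).map fun i => w.getD i false := by
    rw [zr, e4, e1]
  have e6 : (zQ (pairBits w (inp n k))).map A =
      (List.range (3 * n)).map (fun j => A (adr n k false (List.replicate k false) j)) ++
      (List.range (3 * n)).map
        (fun j => A (adr n k true ((List.range k).map fun i => w.getD i false) j)) := by
    rw [zQ, e3, e4, e5, List.map_append, zq, zq, List.map_map, List.map_map]
    rfl
  have hF : ((List.range (3 * n)).all (fun j => ((zQ (pairBits w (inp n k))).map A).getD j false)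
      = true) = Flagged A n k := by
    rw [e6, List.all_eq_true]
    simp only [List.mem_range, Flagged, eq_iff_iff]
    refine forall₂_congr fun j hj => ?_
    rw [getD_fst _ _ hj]
  have hT : ((List.range (3 * n)).all
      (fun j => ((zQ (pairBits w (inp n k))).map A).getD (3 * n + j) false) = true) =
      Cell A n k ((List.range k).map fun i => w.getD i false) true := by
    rw [e6, List.all_eq_true]
    simp only [List.mem_range, Cell, eq_iff_iff]
    refine forall₂_congr fun j hj => ?_
    rw [getD_snd _ _ hj]
  have hC : ((List.range (3 * n)).all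
      (fun j => !(((zQ (pairBits w (inp n k))).map A).getD (3 * n + j) false)) = true) =
      Cell A n k ((List.range k).map fun i => w.getD i false) false := by
    rw [e6, List.all_eq_true]
    simp only [List.mem_range, Cell, eq_iff_iff]
    refine forall₂_congr fun j hj => ?_
    rw [getD_snd _ _ hj]
    simp
  rw [zV, zH]
  simp only [e3, e4, e1]
  rw [if_pos ⟨trivial, h1, h2⟩]
  simp only [hF, hT, hC]

theorem zV_of_not {n₀ : ℕ} {A : Oracle} {x : List Bool}
    (hx : ¬ ∃ n k, n₀ ≤ n ∧ k ≤ n ∧ x = inp n k) (w : List Bool) :
    zV n₀ A (pairBits w x) = [false] := by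
  have e1 : unpair (pairBits w x) = (w, x) := unpair_pairBits _ _
  rw [zV, zH, if_neg]
  rintro ⟨h1, h2, h3⟩
  rw [e1] at h1
  exact hx ⟨_, _, h2, h3, h1.symm⟩

theorem inp_inj {n k n' k' : ℕ} (h : inp n k = inp n' k') : n = n' ∧ k = k' := by
  have h1 := congrArg unpair h
  change unpair (pairBits (un n) (un k)) = unpair (pairBits (un n') (un k')) at h1
  rw [unpair_pairBits, unpair_pairBits, Prod.mk.injEq] at h1
  refine ⟨?_, ?_⟩
  · simpa using congrArg List.length h1.1
  · simpa using congrArg List.length h1.2

/-- the number of strings of length `k + d` whose first `k` bits have a property -/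
theorem card_first (k d : ℕ) (S : (Fin k → Bool) → Prop) :
    Nat.card {w : Fin (k + d) → Bool // S fun i => w (Fin.castAdd d i)} =
      Nat.card {r // S r} * 2 ^ d := by
  have e1 : {w : Fin (k + d) → Bool // S fun i => w (Fin.castAdd d i)} ≃
      {q : (Fin k → Bool) × (Fin d → Bool) // S q.1} :=
    Equiv.subtypeEquiv (Fin.appendEquiv k d).symm fun w => by
      refine iff_of_eq (congrArg S ?_)
      rfl
  rw [Nat.card_congr e1, Nat.card_congr (Equiv.prodSubtypeFstEquivSubtypeProd), Nat.card_prod]
  congr 1
  rw [Nat.card_eq_fintype_card, Fintype.card_fun, Fintype.card_bool, Fintype.card_fin]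

theorem p_zpp : P_zpp := by
  classical
  intro n₀ hn₀ A hA
  refine ⟨zV n₀ A, Polynomial.X, isFP_zV n₀ A, fun x => ?_⟩
  rw [Polynomial.eval_X]
  by_cases hx : ∃ n k, n₀ ≤ n ∧ k ≤ n ∧ x = inp n k
  · obtain ⟨n, k, h1, h2, rfl⟩ := hx
    have hmem : inp n k ∈ zlang n₀ A ↔ Flagged A n k ∧
        ∃ r : List Bool, r.length = k ∧ Cell A n k r true := by
      constructor
      · rintro ⟨n', k', -, -, he, h3, h4⟩
        obtain ⟨rfl, rfl⟩ := inp_inj he
        exact ⟨h3, h4⟩
      · rintro ⟨h3, h4⟩
        exact ⟨n, k, h1, h2, rfl, h3, h4⟩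
    rw [hmem]
    have hr : ∀ w : List Bool, ((List.range k).map fun i => w.getD i false).length = k :=
      fun w => by simp
    by_cases hF : Flagged A n k
    · obtain ⟨h3, h4⟩ := hA n k h1 h2 hF
      refine ⟨fun w _ => ?_, ?_⟩
      · rw [zV_eq h1 h2, if_pos hF]
        split_ifs with h5 h6
        · exact ⟨fun _ => ⟨hF, _, hr w, h5⟩, fun h => by simp at h⟩
        · refine ⟨fun h => by simp at h, fun _ => ?_⟩
          rintro ⟨-, r, h7, h8⟩
          exact h3 ⟨r, _, h7, hr w, h8, h6⟩
        · exact ⟨fun h => by simp at h, fun h => by simp at h⟩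
      · have hlen : (inp n k).length = k + (2 * n + 1) := by
          change (pairBits (un n) (un k)).length = _
          rw [length_pairBits, List.length_replicate, List.length_replicate]
          omega
        rw [hlen]
        have e1 : ∀ w : Fin (k + (2 * n + 1)) → Bool,
            ((List.range k).map fun i => (List.ofFn w).getD i false) =
              List.ofFn fun i : Fin k => w (Fin.castAdd (2 * n + 1) i) := by
          intro w
          refine List.ext_getElem (by simp) fun i h5 h6 => ?_
          have h7 : i < k := by simpa using h6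
          rw [List.getElem_map, List.getElem_range, List.getElem_ofFn,
            List.getD_eq_getElem?_getD, List.getElem?_ofFn, dif_pos (by omega)]
          rfl
        have e2 : Nat.card {w : Fin (k + (2 * n + 1)) → Bool //
            zV n₀ A (pairBits (List.ofFn w) (inp n k)) = [true] ∨
            zV n₀ A (pairBits (List.ofFn w) (inp n k)) = [false]} =
            Nat.card {r : Fin k → Bool // Cell A n k (List.ofFn r) true ∨
              Cell A n k (List.ofFn r) false} * 2 ^ (2 * n + 1) := by
          rw [← card_first k (2 * n + 1)]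
          refine Nat.card_congr (Equiv.subtypeEquivRight fun w => ?_)
          rw [zV_eq h1 h2, if_pos hF, e1]
          split_ifs with h5 h6
          · simp [h5]
          · simp [h6]
          · simp [h5, h6]
        rw [e2, div_le_div_iff₀ (by norm_num) (by positivity), one_mul, pow_add]
        have h5 : (2 : ℝ) ^ k ≤ 2 * (Nat.card {r : Fin k → Bool //
            Cell A n k (List.ofFn r) true ∨ Cell A n k (List.ofFn r) false} : ℝ) := by
          exact_mod_cast h4
        push_cast
        have h6 : (0 : ℝ) < 2 ^ (2 * n + 1) := by positivity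
        nlinarith
    · refine ⟨fun w _ => ?_, ?_⟩
      · rw [zV_eq h1 h2, if_neg hF]
        exact ⟨fun h => by simp at h, fun _ h => hF h.1⟩
      · have e2 : Nat.card {w : Fin (inp n k).length → Bool //
            zV n₀ A (pairBits (List.ofFn w) (inp n k)) = [true] ∨
            zV n₀ A (pairBits (List.ofFn w) (inp n k)) = [false]} =
            2 ^ (inp n k).length := by
          rw [Nat.card_congr (Equiv.subtypeUnivEquiv fun w => ?_)]
          · rw [Nat.card_eq_fintype_card, Fintype.card_fun, Fintype.card_bool, Fintype.card_fin]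
          · rw [zV_eq h1 h2, if_neg hF]
            exact Or.inr rfl
        rw [e2]
        push_cast
        rw [div_self (by positivity)]
        norm_num
  · refine ⟨fun w _ => ?_, ?_⟩
    · rw [zV_of_not hx]
      refine ⟨fun h => by simp at h, fun _ h => ?_⟩
      obtain ⟨n, k, h1, h2, h3, -⟩ := h
      exact hx ⟨n, k, h1, h2, h3⟩
    · have e2 : Nat.card {w : Fin x.length → Bool //
          zV n₀ A (pairBits (List.ofFn w) x) = [true] ∨
          zV n₀ A (pairBits (List.ofFn w) x) = [false]} = 2 ^ x.length := by
        rw [Nat.card_congr (Equiv.subtypeUnivEquiv fun w => ?_)]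
        · rw [Nat.card_eq_fintype_card, Fintype.card_fun, Fintype.card_bool, Fintype.card_fin]
        · rw [zV_of_not hx]
          exact Or.inr rfl
      rw [e2]
      push_cast
      rw [div_self (by positivity)]
      norm_num

end Pool.Agent.W2helper56.GF
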